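import Pool.Agent.H84.Jet.Lem2

namespace Pool.Agent.Results.MP_c360fa_mp.JetQ1

open MvPolynomial Pool.H84.Jet

/-- **Answer to Q1.** The assertion of Q1 is false; for a fixed order `m > 1` of `g` it holds
(vacuously) exactly when `m` is even. For every odd `m > 1` the pair `f = u_(m+1)`, `g = u_m^2`
satisfies `f * g = 0`, while `H g` is the plane spanned by `u_(m+1)` and `d^m (u_m^2)`. -/
theorem result :
    (¬ ∀ m : ℕ, 1 < m → Q1At m) ∧
    (∀ m : ℕ, 1 < m → (Q1At m ↔ Even m)) ∧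
    (∀ m : ℕ, 1 < m → Odd m →
      star (X (m + 1)) (X m ^ 2) = 0 ∧
      H (X m ^ 2) = Submodule.span ℝ {X (m + 1), d^[m] (X m ^ 2)} ∧
      Module.finrank ℝ (H (X m ^ 2)) = 2 ∧ FiniteDimensional ℝ (H (X m ^ 2))) :=
  main

end Pool.Agent.Results.MP_c360fa_mp.JetQ1
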